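import Pool.Agent.H942.T3.Main
import Pool.Agent.H941.TF.Wrap

/-!
# The motivic monodromy conjecture for plane curves of large degree and for their multiples

Let `f ≠ 0` be a form of degree `d` in three variables over `ℂ` (for the `p`-adic results: with
rational or integral coefficients).

**Forms whose reduced curve has a large degree** (`DivSub`, first case). Let `H = 0` be the reduced curve of
`f = 0` and `e` its degree. Double points of `H = 0` (of all types `A_k`) and non-resonant quasi-homogeneous
points of `f` (`QHAt`) are free. Let `P_b` be the other singular points, and let `k_b` be numbers with
`dist (y, P_b) ^ (k_b + 2) = o (|grad H (y)|)` for `y → P_b` on `H = 0` (`Small`). For an ordinary `m`-fold point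
this is `k = m - 2`; in general it means that the power `k + 1` of the maximal ideal of the point is contained in
the conductor. The theorem holds **if `∑ k_b + 5 ≤ e`** (without such points: if `e ≥ 4`), more generally if the
forms of degree `e - 6` separate the jets of order `< k_b` at the points `P_b` (`SepJets`); for example, if the
`P_b` are ordinary triple points which impose independent conditions on the curves of degree `e - 6`. The
multiplicities of the components of `f = 0` are arbitrary.

**Multiples** (`DivSub`, second case). If `H` is any squarefree divisor of `f` which satisfies the same
conditions, and if the points of `H = 0` have multiplicities `≤ m < e / 3`, then the theorem holds, and **the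
form `f / H` is arbitrary**: any number of components, with any multiplicities, with any singularities and with
any contact to `H = 0`. For example `H = 0` is a smooth curve of a degree `≥ 4`, or a curve of a degree `≥ 7` with
arbitrary double points, or of a degree `e ≥ 10` with `e - 5` ordinary triple points and with any number of
double points.

**The general case** (`TameSub`). The reduced curve `f = 0` is the union of `H = 0` and of `g_1 = 0, …, g_r = 0`
(forms, `H ∏ g_j` squarefree), where

* (`Start`) `H` satisfies the conditions above; or `e > 2 κ + 3`, and each singular point `z` of `H = 0` is a
  double point of this curve, or a non-resonant quasi-homogeneous point of `f`, or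
  `dist (y, z) ^ 2 (|g₁ y| + |g₂ y|) = o (|grad H (y)|)` for `y → z` on `H = 0`, where `g₁`, `g₂` are two
  relatively prime forms of degree `κ`, which do not depend on `z`;
* let `D_j` be the product of `H` and the `g_l` with `l < j`; then `g_j` is irreducible and has more than
  `3 deg g_j` different common points with `D_j = 0`, or `D_j = 0` has a multiplicity `≤ m` at the common
  points (those which are not non-resonant quasi-homogeneous points of `f`), where `3 m < deg D_j`.

We also assume (`NoField`, `TameNF`) that all linear vector fields which annihilate `f` have trace `0`; it is
sufficient that some form `H' ∣ f` of degree `e'` has only points of multiplicities `≤ M < e' / 2`, or that the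
singular points of `H = 0` are nodes.

The curve `f = 0` is in general not reduced, its singular points are in general not quasi-homogeneous,
and the components `g_j = 0` have arbitrary singularities outside of the previous components.

The proof of `b(-3/d) = 0` (`TameSub.root`). Put `s = -3/d` and suppose that `b(s) ≠ 0`.

* `bert`, `center2`: there are coordinates `t = x₀`, `x₁ = 1`, `x = x₂` such that the line at infinity is
  transversal to the reduced curve `Q = 0`, no tangent at the (finitely many) bad points is vertical, and
  different bad points have different coordinates `t`;
* (library, and helper941's modules) the functional equation gives polynomials with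
  `f ^ s = ∂_t (p f ^ s / Q) + ∂_x (ρ f ^ s / Q)`; let `y` be the residue of this primitive, a function on the
  curve `Q = 0`. It is bounded near each point and `O (t ^ 3)` at infinity, and (`lip`) it is even a
  **Lipschitz function** of the points of the curve: `(y_i - y_j) / (a_i - a_j)` has a limit for any two
  branches `x = a_i (t)`, `x = a_j (t)`. The quotients satisfy a linear system with positive exponents, since
  `s < 0`; the multiplicities of the components do not matter;
* `t_Mo`: hence `y = y(z) + O (t - t(z))` along each branch through `z` (monodromy: the differences of the
  conjugates are bounded by those of the branches);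
* `t_St2`: so, near each point `z` of `H = 0`, the product of `y` with a function `g` is the restriction of a
  polynomial: with `g = 1` at double points, since Lipschitz functions on `A_k`-singularities are regular
  (`t_V3`), with all `g` in the power `k` of the maximal ideal at a point of depth `k` (`t_FP`), by Lagrange
  interpolation in clusters of roots (`t_V`, `t_V2`);
* `gs`, `t_Rg`, `t_Al`, `t_In`: **`y` is a polynomial on `H = 0`**, by a residue argument. Let `y = W / δ(t)` on
  `H = 0`, with the polynomial `δ` of the least degree, and let `δ(b) = 0`. For a polynomial `g` of degree
  `≤ e - 6` the trace of `g y / ∂_x H` is a rational function of `t` which is `O (t ^ (-2))` at infinity and has no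
  poles outside of `b` if `g` vanishes to the order `k_z` at the bad points outside of the fibre. The jet of `g` at
  the bad point of the fibre is arbitrary, and the residue at `b` is zero. So `y` has no pole there;
* or (`t_Zq`) `g₁ y = W₁` and `g₂ y = W₂` on `H = 0`, and `g₂ W₁ - g₁ W₂` has degree `≤ 2 κ + 3 < e`, so it is `0`,
  and `y` is a polynomial on `H = 0`. In both cases `y = Z` on `H = 0` with a polynomial `Z` of degree `≤ 3`;
* `t_Ps`: on `g_j = 0` the function `(y - Z) ^ m / D_j` is bounded (Lipschitz, and `y = Z` on `D_j = 0`) and
  is `O (t ^ (3 m - deg D_j))` at infinity; so it is `0`; or it has more zeros than its degree. So `y = Z`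
  on `Q = 0`;
* endgame: after a change by a boundary the primitive is a vector field without poles which is tangent to
  the curve, and then a linear vector field of trace `≠ 0` which annihilates `f`, a contradiction (`t_MF`: then
  each curve contained in `f = 0` has a point of a multiplicity `≥ e' / 2`).

**All other poles** are roots of `b`, see helper941's modules and the library (`mot_single`, `eq_single`: the motivic
zeta functions of cones over plane curves).
-/

set_option autoImplicit false

namespace Pool.Agent.Results.MP_432c1b_ag.TameSubcurve

open MvPolynomial Pool.Agent.W574.CN Pool.Agent.W574.MO Pool.Agent.W574.HS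
  Pool.Agent.H628R4.TP Pool.Agent.Helper748.MC Pool.Agent.Helper748.EQ Pool.Agent.H941.TF
  Pool.Agent.H942.T3

/-- **The motivic monodromy conjecture (Bernstein-Sato form) for all forms in three variables of the class `TameNF`: forms (not annihilated by a
linear vector field of trace `≠ 0`) whose reduced curve `H = 0` has a degree `e ≥ 5 + ∑ k_b`, where `k_b` are the
depths of the singular points which are not double points, multiples of such `H` with points of multiplicities
`< e / 3`, and more.**
Here `b` is any polynomial which satisfies a functional equation `b(s) f ^ s = P(s) f ^ (s + 1)`, in particular
the Bernstein-Sato polynomial, and `c + Z` is the motivic zeta function, with a constant `c` and `Z` as in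
`EqCone`. Then `-3/d` is a root of `b` and there is a finite set `S` of pairs `a, n ≥ 1` with `b(-n/a) = 0` such
that `c + Z` lies in the ring `M[T][(1 - L⁻ⁿ Tᵃ)⁻¹]`, `(a, n) ∈ S` (`Good`). -/
theorem result {M : Type} [CommRing M] (L : Mˣ) (f : MvPolynomial (Fin 3) ℂ) (hf0 : f ≠ 0) (d : ℕ)
    (hf : f.IsHomogeneous d) (hc : TameNF f) (b : Polynomial ℂ) (hb : IsBFunction f b) :
    b.eval (-3 / d : ℂ) = 0 ∧
      ∀ (c : M) (Z : PowerSeries M), EqCone L f d Z → Good L b (PowerSeries.C c + Z) := by
  have hr : IsBFunction f b → b.eval (-3 / d : ℂ) = 0 := fun hb => hc.root hf0 hf hb
  exact ⟨hr hb, fun c Z hZ => good_of (Subring.add_mem _ (C_mem _)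
    (eq_single L f d hf0 hf b (Or.inl hb) hr Z hZ))⟩

end Pool.Agent.Results.MP_432c1b_ag.TameSubcurve
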